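import Pool.Agent.H68.LCS.Targets

/-!
The space of the closed invariant sets has a countable base (row A_FSC, MP_5607ba_lc).
-/

set_option autoImplicit false

open Set Filter Topology
open scoped Pointwise

namespace Pool.Agent.H57.LCS

open Pool.Agent.H93.CP Pool.Agent.H7.LP Pool.Agent.H7.LQ Pool.Agent.H68.LCS

theorem pf_FSC (h1 : T_LIT) : T_FSC := by
  intro G _ _ _ R P
  obtain ⟨l1, l2, l3⟩ := h1 G R P
  set A : Set (Set (Fe R)) := Set.range fun p : ℕ × ℕ => {y : Fe R | (y.y p.1 ∩ P.U p.2).Nonempty}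
    with hA
  set B : Set (Set (Fe R)) := Set.range fun p : ℕ × ℕ =>
    {y : Fe R | ¬ (y.y p.1 ∩ P.D p.2).Nonempty} with hB
  have hAc : A.Countable := Set.countable_range _
  have hBc : B.Countable := Set.countable_range _
  refine ⟨⟨A ∪ B, hAc.union hBc, ?_⟩⟩
  have oA : ∀ n i, IsOpen[TopologicalSpace.generateFrom (A ∪ B)]
      {y : Fe R | (y.y n ∩ P.U i).Nonempty} := fun n i =>
    TopologicalSpace.isOpen_generateFrom_of_mem (Or.inl ⟨(n, i), rfl⟩)
  have oB : ∀ n i, IsOpen[TopologicalSpace.generateFrom (A ∪ B)]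
      {y : Fe R | ¬ (y.y n ∩ P.D i).Nonempty} := fun n i =>
    TopologicalSpace.isOpen_generateFrom_of_mem (Or.inr ⟨(n, i), rfl⟩)
  apply le_antisymm
  · apply le_generateFrom
    rintro V (⟨⟨n, i⟩, rfl⟩ | ⟨⟨n, i⟩, rfl⟩)
    · exact TopologicalSpace.isOpen_generateFrom_of_mem (Or.inl ⟨n, P.U i, P.opn i, rfl⟩)
    · exact TopologicalSpace.isOpen_generateFrom_of_mem (Or.inr ⟨n, P.D i, P.cpt i, rfl⟩)
  · apply le_generateFrom
    rintro V (⟨n, U, hU, rfl⟩ | ⟨n, D, hD, rfl⟩)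
    · have e : {y : Fe R | (y.y n ∩ U).Nonempty} =
          ⋃ i ∈ {i : ℕ | ∀ z : Fe R, (z.y n ∩ P.D i).Nonempty → (z.y n ∩ U).Nonempty},
            {y : Fe R | (y.y n ∩ P.U i).Nonempty} := by
        ext y
        simp only [mem_ofPred_eq, mem_iUnion, exists_prop]
        constructor
        · intro hy
          obtain ⟨i, hi1, hi2⟩ := l2 y n U hU hy
          exact ⟨i, hi2, hi1⟩
        · rintro ⟨i, hi, hy⟩
          exact hi y (l1 y n i hy)
      rw [e]
      exact @isOpen_biUnion (Fe R) ℕ (TopologicalSpace.generateFrom (A ∪ B)) _ _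
        fun i _ => oA n i
    · have e : {y : Fe R | ¬ (y.y n ∩ D).Nonempty} =
          ⋃ I ∈ {I : Finset ℕ | ∀ a ∈ D, ∃ i ∈ I, a ∈ P.U i},
            ⋂ i ∈ I, {y : Fe R | ¬ (y.y n ∩ P.D i).Nonempty} := by
        ext y
        simp only [mem_ofPred_eq, mem_iUnion, mem_iInter, exists_prop]
        constructor
        · intro hy
          obtain ⟨I, hI1, hI2, -⟩ := l3 y n D hD hy
          exact ⟨I, hI2, hI1⟩
        · rintro ⟨I, hI, hy⟩ ⟨a, ha, haD⟩
          obtain ⟨i, hi, hai⟩ := hI a haD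
          exact hy i hi (l1 y n i ⟨a, ha, hai⟩)
      rw [e]
      refine @isOpen_biUnion (Fe R) (Finset ℕ) (TopologicalSpace.generateFrom (A ∪ B)) _ _
        fun I _ => ?_
      exact @isOpen_biInter_finset (Fe R) ℕ (TopologicalSpace.generateFrom (A ∪ B)) I _
        fun i _ => oB n i

end Pool.Agent.H57.LCS
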